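import Pool.Agent.Y608.Sel.Powers

/-!
# Selection principles for dense families in arbitrary powers: the main steps
-/

set_option autoImplicit false

namespace Pool.Agent.Y608.Sel

open Set Pool.Agent.Helper63.Pow

universe u v w

section

variable {ι : Type v} {X : Type u} [TopologicalSpace X]

/-- a countable family of boxes inside of the members of a dense family with dense union -/
theorem exists_boxes {Y : Type u} [TopologicalSpace Y] (hccc : Ccc Y) {𝒱 : Set (Set Y)}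
    (h𝒱 : 𝒱 ∈ DFam Y) (D : Set (ONS Y)) (hD : ∀ w : ONS Y, ∃ w' ≤ w, w' ∈ D) :
    ∃ 𝒬 : Set (ONS Y), 𝒬.Countable ∧ (∀ p ∈ 𝒬, p ∈ D ∧ ∃ V ∈ 𝒱, (p : Set Y) ⊆ V) ∧
      ∀ w : ONS Y, ∃ p ∈ 𝒬, Meet w p := by
  rcases isEmpty_or_nonempty Y with hY | ⟨⟨y⟩⟩
  · exact ⟨∅, countable_empty, fun p hp => hp.elim, fun w => (hY.false w.2.2.some).elim⟩
  obtain ⟨𝒬, h1, h2, h3⟩ := exists_max_antichain (P := ONS Y) ⟨univ, isOpen_univ, ⟨y, mem_univ _⟩⟩
    {p | p ∈ D ∧ ∃ V ∈ 𝒱, (p : Set Y) ⊆ V} (by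
      intro w _
      obtain ⟨x, hx, V, hV, hxV⟩ := h𝒱.2.inter_open_nonempty _ w.2.1 w.2.2
      obtain ⟨w', hw', hw'D⟩ := hD ⟨(w : Set Y) ∩ V, w.2.1.inter (h𝒱.1 V hV), ⟨x, hx, hxV⟩⟩
      exact ⟨w', (show (w' : Set Y) ⊆ _ from hw').trans inter_subset_left, hw'D, V, hV,
        (show (w' : Set Y) ⊆ _ from hw').trans inter_subset_right⟩)
  exact ⟨𝒬, ccc_ons hccc 𝒬 h2, fun p hp => h1 hp, fun w => h3 w (subset_univ _)⟩

/-- exhaustion of a countable set by finite sets -/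
theorem exhaust (J : Set ι) (hJ : J.Countable) :
    ∃ F : ℕ → Finset ι, ∀ G : Finset ι, ∃ k, ∀ i ∈ G, i ∈ J → i ∈ F k := by
  classical
  rcases J.eq_empty_or_nonempty with rfl | hne
  · exact ⟨fun _ => ∅, fun G => ⟨0, fun i _ hi => hi.elim⟩⟩
  obtain ⟨e, he⟩ := hJ.exists_eq_range hne
  refine ⟨fun k => (Finset.range k).image e, fun G => ?_⟩
  have h : ∀ i : ι, ∃ n, i ∈ J → e n = i := by
    intro i
    by_cases hi : i ∈ J
    · rw [he] at hi
      obtain ⟨n, hn⟩ := hi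
      exact ⟨n, fun _ => hn⟩
    · exact ⟨0, fun h => absurd h hi⟩
  choose n hn using h
  refine ⟨G.sup n + 1, fun i hi hiJ => ?_⟩
  rw [Finset.mem_image]
  refine ⟨n i, ?_, hn i hiJ⟩
  rw [Finset.mem_range]
  have := Finset.le_sup (f := n) hi
  omega

/-- The selection principle for dense families passes from the finite powers to all powers. -/
theorem sel_pi {p : Prop} [Nonempty X]
    (h : ∀ k : ℕ, SelP p (DFam (Fin k → X)) (DFam (Fin k → X))) :
    SelP p (DFam (ι → X)) (DFam (ι → X)) := by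
  classical
  obtain ⟨x₀⟩ := ‹Nonempty X›
  have hccc : Ccc (ι → X) := ccc_pi fun k => ccc_of_DFam (h k).weaken
  intro 𝒱 h𝒱
  have hq : ∀ n, ∃ 𝒬 : Set (ONS (ι → X)), 𝒬.Countable ∧
      (∀ q ∈ 𝒬, q ∈ {w : ONS (ι → X) | ∃ b : Bx ι X, univ.pi b.side = (w : Set (ι → X))} ∧
        ∃ V ∈ 𝒱 n, (q : Set (ι → X)) ⊆ V) ∧ ∀ w : ONS (ι → X), ∃ q ∈ 𝒬, Meet w q := by
    intro n
    refine exists_boxes hccc (h𝒱 n) _ ?_
    intro w
    obtain ⟨x, hx⟩ := w.2.2
    obtain ⟨b, -, hb⟩ := exists_bx w.2.1 hx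
    exact ⟨⟨univ.pi b.side, b.isOpen, b.nonempty⟩, hb, b, rfl⟩
  choose 𝒬 hQ1 hQ2 hQ3 using hq
  have hbV : ∀ n, ∀ q : 𝒬 n, ∃ (b : Bx ι X) (V : Set (ι → X)), V ∈ 𝒱 n ∧
      univ.pi b.side = ((q : ONS (ι → X)) : Set (ι → X)) ∧ univ.pi b.side ⊆ V := by
    intro n q
    obtain ⟨⟨b, hb⟩, V, hV, hqV⟩ := hQ2 n q q.2
    exact ⟨b, V, hV, hb, hb ▸ hqV⟩
  choose b V hV hb hbV using hbV
  have hJ : (⋃ n, ⋃ q : 𝒬 n, ((b n q).supp : Set ι)).Countable := by
    refine countable_iUnion fun n => ?_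
    have := (hQ1 n).to_subtype
    exact countable_iUnion fun q => (Finset.countable_toSet _)
  obtain ⟨F, hF⟩ := exhaust _ hJ
  -- the family on the finite power of the block `k`
  have hWD : ∀ n k, (range fun q : 𝒬 n => univ.pi fun j : Fin (F k).card =>
      (b n q).side (((F k).equivFin.symm j : F k) : ι)) ∈ DFam (Fin (F k).card → X) := by
    intro n k
    refine ⟨?_, ?_⟩
    · rintro _ ⟨q, rfl⟩
      exact isOpen_set_pi finite_univ fun j _ => (b n q).op _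
    · rw [dense_iff_inter_open]
      intro O hO ⟨x, hx⟩
      obtain ⟨u, hu, huO⟩ := isOpen_pi_iff'.mp hO x hx
      -- the box in the big power
      obtain ⟨c, hc⟩ : ∃ c : Bx ι X, ∀ j, c.side (((F k).equivFin.symm j : F k) : ι) = u j := by
        refine ⟨{
          side := fun i => if hi : i ∈ F k then u ((F k).equivFin ⟨i, hi⟩) else univ
          op := ?_
          ne := ?_
          supp := F k
          out := ?_ }, ?_⟩
        · intro i
          split_ifs with hi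
          · exact (hu _).1
          · exact isOpen_univ
        · intro i
          split_ifs with hi
          · exact ⟨_, (hu _).2⟩
          · exact ⟨x₀, mem_univ _⟩
        · intro i hi
          rw [dif_neg hi]
        · intro j
          dsimp only
          rw [dif_pos ((F k).equivFin.symm j).2]
          simp
      obtain ⟨q, hq, hm⟩ := hQ3 n ⟨univ.pi c.side, c.isOpen, c.nonempty⟩
      obtain ⟨z, hz1, hz2⟩ := meet_iff.mp hm
      refine ⟨fun j => z (((F k).equivFin.symm j : F k) : ι), huO fun j _ => ?_, _,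
        ⟨⟨q, hq⟩, rfl⟩, fun j _ => ?_⟩
      · rw [← hc j]
        exact hz1 _ (mem_univ _)
      · rw [← hb n ⟨q, hq⟩] at hz2
        exact hz2 _ (mem_univ _)
  -- the choice for the block `k`
  have hsel : ∀ k, ∃ ℱ : (l : ℕ) → Set (𝒬 (Nat.pair k l)),
      (∀ l, (ℱ l).Finite ∧ (p → ∃ q, ℱ l = {q})) ∧
      ∀ O : Set (Fin (F k).card → X), IsOpen O → O.Nonempty → ∃ l, ∃ q ∈ ℱ l,
        (O ∩ univ.pi fun j => (b _ q).side (((F k).equivFin.symm j : F k) : ι)).Nonempty := by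
    intro k
    obtain ⟨𝒦, h1, h2⟩ := h (F k).card _ fun l => hWD (Nat.pair k l) k
    have hch : ∀ l, ∀ W : 𝒦 l, ∃ q : 𝒬 (Nat.pair k l), (univ.pi fun j : Fin (F k).card =>
        (b _ q).side (((F k).equivFin.symm j : F k) : ι)) = (W : Set (Fin (F k).card → X)) :=
      fun l W => (h1 l).1 W.2
    choose q hq using hch
    refine ⟨fun l => range (q l), fun l => ⟨?_, ?_⟩, ?_⟩
    · have := (h1 l).2.1.to_subtype
      exact finite_range _
    · intro hp
      obtain ⟨U, hU⟩ := (h1 l).2.2 hp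
      have hmem : U ∈ 𝒦 l := by rw [hU]; rfl
      refine ⟨q l ⟨U, hmem⟩, ?_⟩
      ext q'
      constructor
      · rintro ⟨⟨W, hW⟩, rfl⟩
        have : W = U := by rw [hU] at hW; exact hW
        subst this
        rfl
      · rintro rfl
        exact mem_range_self _
    · intro O hO hne
      obtain ⟨y, hyO, W, hW, hyW⟩ := h2.2.inter_open_nonempty O hO hne
      obtain ⟨l, hl⟩ := mem_iUnion.mp hW
      refine ⟨l, q l ⟨W, hl⟩, mem_range_self _, y, hyO, ?_⟩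
      rw [hq l ⟨W, hl⟩]
      exact hyW
  choose ℱ h1 h2 using hsel
  refine ⟨fun n => V (Nat.pair n.unpair.1 n.unpair.2) '' (ℱ n.unpair.1 n.unpair.2),
    fun n => ⟨?_, ?_, ?_⟩, ?_, ?_⟩
  · rintro _ ⟨q, -, rfl⟩
    have key : ∀ N, ∀ q' : 𝒬 N, N = n → V N q' ∈ 𝒱 n := by
      intro N q' h
      subst h
      exact hV _ q'
    exact key _ q (Nat.pair_unpair n)
  · exact (h1 _ _).1.image _
  · intro hp
    obtain ⟨q, hq⟩ := (h1 n.unpair.1 n.unpair.2).2 hp
    exact ⟨V _ q, by dsimp only; rw [hq, image_singleton]⟩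
  · intro U hU
    obtain ⟨n, q, -, rfl⟩ := mem_iUnion.mp hU
    exact (h𝒱 _).1 _ (hV _ q)
  · rw [dense_iff_inter_open]
    intro O hO ⟨x, hx⟩
    obtain ⟨c, hxc, hcO⟩ := exists_bx hO hx
    obtain ⟨k, hk⟩ := hF c.supp
    obtain ⟨l, q, hq, y, hy1, hy2⟩ := h2 k (univ.pi fun j =>
      c.side (((F k).equivFin.symm j : F k) : ι))
      (isOpen_set_pi finite_univ fun j _ => c.op _) (univ_pi_nonempty_iff.mpr fun j => c.ne _)
    have hz : ∀ i, (c.side i ∩ (b _ q).side i).Nonempty := by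
      intro i
      by_cases hi : i ∈ F k
      · refine ⟨y ((F k).equivFin ⟨i, hi⟩), ?_, ?_⟩
        · have := hy1 ((F k).equivFin ⟨i, hi⟩) (mem_univ _)
          simpa using this
        · have := hy2 ((F k).equivFin ⟨i, hi⟩) (mem_univ _)
          simpa using this
      · by_cases hic : i ∈ c.supp
        · have hiJ : i ∉ (b _ q).supp := fun hib => hi (hk i hic
            (mem_iUnion.mpr ⟨_, mem_iUnion.mpr ⟨q, hib⟩⟩))
          rw [(b _ q).out i hiJ, inter_univ]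
          exact c.ne i
        · rw [c.out i hic, univ_inter]
          exact (b _ q).ne i
    choose z hz using hz
    refine ⟨z, hcO fun i _ => (hz i).1, V _ q, ?_, hbV _ q fun i _ => (hz i).2⟩
    have key : ∀ a c : ℕ, a = k → c = l → V (Nat.pair k l) q ∈ V (Nat.pair a c) '' ℱ a c := by
      rintro _ _ rfl rfl
      exact ⟨q, hq, rfl⟩
    exact mem_iUnion.mpr ⟨Nat.pair k l, key _ _ (by simp) (by simp)⟩

/-- The converse for infinite powers. -/
theorem sel_down {p : Prop} [Nonempty X] [Infinite ι]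
    (h : SelP p (DFam (ι → X)) (DFam (ι → X))) (k : ℕ) :
    SelP p (DFam (Fin k → X)) (DFam (Fin k → X)) := by
  classical
  obtain ⟨g⟩ : Nonempty (Fin k ↪ ι) := ⟨Fin.valEmbedding.trans (Infinite.natEmbedding ι)⟩
  have hext : ∀ (c : Bx ι X) (y : Fin k → X), (∀ j, y j ∈ c.side (g j)) →
      ∃ x ∈ univ.pi c.side, ∀ j, x (g j) = y j := by
    intro c y hy
    choose s hs using c.ne
    refine ⟨fun i => if hi : ∃ j, g j = i then y hi.choose else s i, ?_, ?_⟩
    · intro i _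
      dsimp only
      split_ifs with hi
      · have := hy hi.choose
        rwa [hi.choose_spec] at this
      · exact hs i
    · intro j
      have hj : ∃ j', g j' = g j := ⟨j, rfl⟩
      dsimp only
      rw [dif_pos hj, g.injective hj.choose_spec]
  intro 𝒰 h𝒰
  set π : (ι → X) → (Fin k → X) := fun x j => x (g j) with hπ
  have hπc : Continuous π := continuous_pi fun j => continuous_apply (g j)
  obtain ⟨ℱ, h1, h2⟩ := h (fun n => preimage π '' 𝒰 n) (by
    intro n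
    refine ⟨?_, ?_⟩
    · rintro _ ⟨U, hU, rfl⟩
      exact ((h𝒰 n).1 U hU).preimage hπc
    · rw [dense_iff_inter_open]
      intro O hO ⟨x, hx⟩
      obtain ⟨c, hxc, hcO⟩ := exists_bx hO hx
      obtain ⟨y, hy, U, hU, hyU⟩ := (h𝒰 n).2.inter_open_nonempty (univ.pi fun j => c.side (g j))
        (isOpen_set_pi finite_univ fun j _ => c.op _) (univ_pi_nonempty_iff.mpr fun j => c.ne _)
      obtain ⟨x', hx', hxy⟩ := hext c y fun j => hy j (mem_univ _)
      refine ⟨x', hcO hx', _, ⟨U, hU, rfl⟩, ?_⟩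
      change π x' ∈ U
      rwa [show π x' = y from funext hxy])
  have hch : ∀ n, ∀ W : ℱ n, ∃ U ∈ 𝒰 n, π ⁻¹' U = (W : Set (ι → X)) := fun n W => (h1 n).1 W.2
  choose U hU1 hU2 using hch
  refine ⟨fun n => range (U n), fun n => ⟨?_, ?_, ?_⟩, ?_, ?_⟩
  · rintro _ ⟨W, rfl⟩
    exact hU1 n W
  · have := (h1 n).2.1.to_subtype
    exact finite_range _
  · intro hp
    obtain ⟨W, hW⟩ := (h1 n).2.2 hp
    have hmem : W ∈ ℱ n := by rw [hW]; rfl
    refine ⟨U n ⟨W, hmem⟩, ?_⟩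
    ext q'
    constructor
    · rintro ⟨⟨W', hW'⟩, rfl⟩
      have : W' = W := by rw [hW] at hW'; exact hW'
      subst this
      rfl
    · rintro rfl
      exact mem_range_self _
  · intro W hW
    obtain ⟨n, W', rfl⟩ := mem_iUnion.mp hW
    exact (h𝒰 n).1 _ (hU1 n W')
  · rw [dense_iff_inter_open]
    intro O hO ⟨y, hy⟩
    obtain ⟨x₀⟩ := ‹Nonempty X›
    have hne : (π ⁻¹' O).Nonempty := by
      obtain ⟨x, -, hx⟩ := hext ⟨fun _ => univ, fun _ => isOpen_univ, fun _ => ⟨x₀, mem_univ _⟩, ∅,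
        fun _ _ => rfl⟩ y fun _ => mem_univ _
      exact ⟨x, by change π x ∈ O; rwa [show π x = y from funext hx]⟩
    obtain ⟨x, hx, W, hW, hxW⟩ := h2.2.inter_open_nonempty _ (hO.preimage hπc) hne
    obtain ⟨n, hn⟩ := mem_iUnion.mp hW
    refine ⟨π x, hx, U n ⟨W, hn⟩, mem_iUnion.mpr ⟨n, mem_range_self _⟩, ?_⟩
    change x ∈ π ⁻¹' U n ⟨W, hn⟩
    rw [hU2 n ⟨W, hn⟩]
    exact hxW

end

/-! ### From dense families to `D_Ω` -/

/-- the powers of a set -/
def Blk {Y : Type u} (r : ℕ) (W : Set Y) : Set (Fin r → Y) := univ.pi fun _ => W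

theorem sel_up {p : Prop} {Y : Type u} [TopologicalSpace Y]
    (h : ∀ r : ℕ, SelP p (DFam (Fin r → Y)) (DFam (Fin r → Y))) :
    SelP p (DOmega Y) (DOmega Y) := by
  intro 𝒲 h𝒲
  have hmem : ∀ n r, Blk r '' (𝒲 n) ∈ DFam (Fin r → Y) := by
    intro n r
    refine ⟨?_, ?_⟩
    · rintro _ ⟨W, hW, rfl⟩
      exact isOpen_set_pi finite_univ fun _ _ => (h𝒲 n).1.1 W hW
    · rw [dense_iff_inter_open]
      intro O hO ⟨x, hx⟩
      obtain ⟨H, hH, hHO⟩ := isOpen_pi_iff'.mp hO x hx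
      obtain ⟨W, hW, hm⟩ := (h𝒲 n).2.2 (range H) (finite_range _) (by
        rintro F ⟨i, rfl⟩
        exact ⟨(hH i).1, x i, (hH i).2⟩)
      have : ∀ i, ∃ y, y ∈ W ∧ y ∈ H i := fun i => hm _ ⟨i, rfl⟩
      choose y hy1 hy2 using this
      exact ⟨y, hHO fun i _ => hy2 i, Blk r W, ⟨W, hW, rfl⟩, fun i _ => hy1 i⟩
  have hsel : ∀ r : ℕ, ∃ 𝒦 : ℕ → Set (Set Y),
      (∀ l, 𝒦 l ⊆ 𝒲 (Nat.pair r l) ∧ (𝒦 l).Finite ∧ (p → ∃ U, 𝒦 l = {U})) ∧
      ∀ O : Set (Fin r → Y), IsOpen O → O.Nonempty → ∃ l, ∃ W ∈ 𝒦 l, (O ∩ Blk r W).Nonempty := by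
    intro r
    obtain ⟨ℱ, hF1, hF2⟩ := h r _ fun l => hmem (Nat.pair r l) r
    have hch : ∀ l, ∀ V : ℱ l, ∃ W ∈ 𝒲 (Nat.pair r l), Blk r W = (V : Set (Fin r → Y)) :=
      fun l V => (hF1 l).1 V.2
    choose W hW1 hW2 using hch
    refine ⟨fun l => range (W l), fun l => ⟨?_, ?_, ?_⟩, ?_⟩
    · rintro _ ⟨V, rfl⟩; exact hW1 l V
    · have := (hF1 l).2.1.to_subtype
      exact finite_range _
    · intro hp
      obtain ⟨V, hV⟩ := (hF1 l).2.2 hp
      have hmem : V ∈ ℱ l := by rw [hV]; rfl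
      refine ⟨W l ⟨V, hmem⟩, ?_⟩
      ext q'
      constructor
      · rintro ⟨⟨V', hV'⟩, rfl⟩
        have : V' = V := by rw [hV] at hV'; exact hV'
        subst this
        rfl
      · rintro rfl
        exact mem_range_self _
    · intro O hO hne
      obtain ⟨y, hyO, V, hV, hyV⟩ := hF2.2.inter_open_nonempty O hO hne
      obtain ⟨l, hl⟩ := mem_iUnion.mp hV
      refine ⟨l, W l ⟨V, hl⟩, mem_range_self _, y, hyO, ?_⟩
      rw [hW2 l ⟨V, hl⟩]
      exact hyV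
  choose 𝒦 h1 h2 using hsel
  refine ⟨fun N => 𝒦 N.unpair.1 N.unpair.2, fun N => ?_, ?_⟩
  · have := h1 N.unpair.1 N.unpair.2
    rwa [Nat.pair_unpair] at this
  · apply mem_DOmega
    · intro V hV
      obtain ⟨N, hN⟩ := mem_iUnion.mp hV
      exact (h𝒲 _).1.1 _ ((h1 _ _).1 hN)
    · intro V hV
      obtain ⟨N, hN⟩ := mem_iUnion.mp hV
      exact (h𝒲 _).2.1 _ ((h1 _ _).1 hN)
    · intro ℱ hℱ hop
      obtain ⟨r, f, -, hf⟩ := hℱ.fin_param
      have hfo : ∀ j, IsOpen (f j) ∧ (f j).Nonempty := fun j => hop _ (hf ▸ mem_range_self j)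
      obtain ⟨l, W, hW, x, hx, hxl⟩ := h2 r (univ.pi f)
        (isOpen_set_pi finite_univ fun j _ => (hfo j).1)
        (univ_pi_nonempty_iff.mpr fun j => (hfo j).2)
      refine ⟨W, mem_iUnion.mpr ⟨Nat.pair r l, by simpa using hW⟩, ?_⟩
      rintro F hF
      rw [← hf] at hF
      obtain ⟨i, rfl⟩ := hF
      exact ⟨x i, hxl i (mem_univ _), hx i (mem_univ _)⟩

/-- transfer along a homeomorphism -/
theorem sel_homeo {p : Prop} {Y : Type u} {Z : Type v} [TopologicalSpace Y] [TopologicalSpace Z]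
    (e : Y ≃ₜ Z) (h : SelP p (DFam Y) (DFam Y)) : SelP p (DFam Z) (DFam Z) := by
  intro 𝒰 h𝒰
  obtain ⟨ℱ, h1, h2⟩ := h (fun n => preimage e '' 𝒰 n) (by
    intro n
    refine ⟨?_, ?_⟩
    · rintro _ ⟨U, hU, rfl⟩
      exact ((h𝒰 n).1 U hU).preimage e.continuous
    · rw [dense_iff_inter_open]
      intro O hO ⟨x, hx⟩
      obtain ⟨y, hy, U, hU, hyU⟩ := (h𝒰 n).2.inter_open_nonempty (e.symm ⁻¹' O)
        (hO.preimage e.symm.continuous) ⟨e x, by simpa using hx⟩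
      refine ⟨e.symm y, hy, _, ⟨U, hU, rfl⟩, ?_⟩
      change e (e.symm y) ∈ U
      rwa [e.apply_symm_apply])
  refine ⟨fun n => preimage e.symm '' ℱ n, fun n => ⟨?_, (h1 n).2.1.image _, ?_⟩, ?_, ?_⟩
  · rintro _ ⟨W, hW, rfl⟩
    obtain ⟨U, hU, rfl⟩ := (h1 n).1 hW
    have : e.symm ⁻¹' (e ⁻¹' U) = U := by
      ext z; simp
    rwa [this]
  · intro hp
    obtain ⟨U, hU⟩ := (h1 n).2.2 hp
    exact ⟨e.symm ⁻¹' U, by dsimp only; rw [hU, image_singleton]⟩
  · intro W hW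
    obtain ⟨n, W', hW', rfl⟩ := mem_iUnion.mp hW
    exact (h2.1 _ (mem_iUnion.mpr ⟨n, hW'⟩)).preimage e.symm.continuous
  · rw [dense_iff_inter_open]
    intro O hO ⟨y, hy⟩
    obtain ⟨x, hx, W, hW, hxW⟩ := h2.2.inter_open_nonempty (e ⁻¹' O) (hO.preimage e.continuous)
      ⟨e.symm y, by simpa using hy⟩
    obtain ⟨n, hn⟩ := mem_iUnion.mp hW
    refine ⟨e x, hx, e.symm ⁻¹' W, mem_iUnion.mpr ⟨n, W, hn, rfl⟩, ?_⟩
    simpa using hxW

/-- powers of powers -/
def powPow (r : ℕ) (ι : Type v) (X : Type u) [TopologicalSpace X] :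
    (Fin r × ι → X) ≃ₜ (Fin r → ι → X) where
  toFun f i j := f (i, j)
  invFun f p := f p.1 p.2
  left_inv f := by ext p; rfl
  right_inv f := by ext i j; rfl
  continuous_toFun := continuous_pi fun i => continuous_pi fun j => continuous_apply (i, j)
  continuous_invFun := continuous_pi fun p =>
    (continuous_apply p.2).comp (continuous_apply p.1)

section

variable {X : Type u} [TopologicalSpace X]

/-- the selection principle for the finite powers -/
theorem sel_fin {p : Prop} [Nonempty X] (hX : SelP p (DOmega X) (DOmega X))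
    (hpX : ∀ {𝒞 : ℕ → Set (ONS X)}, Sep 𝒞 →
      (∀ (m : ℕ) (F : Fin m → ONS X), ∃ F' : Fin m → ONS X, (∀ j, F' j ≤ F j) ∧
        ∃ o, ∀ j, ¬ Meet (F' j) o) → SelP p (DOmega X) (DOmega X) →
      ∀ k : ℕ, SelP p (DFam (Fin k → X)) (DFam (Fin k → X)))
    (hb : ¬ ∃ v : ONS X, Bad v) (k : ℕ) : SelP p (DFam (Fin k → X)) (DFam (Fin k → X)) := by
  rcases sep_or_bad (P := ONS X) with h | ⟨𝒞, h𝒞⟩
  · exact absurd h hb
  rcases spread (P := ONS X) with hsp | ⟨𝒜, h1, h2⟩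
  · exact hpX h𝒞 hsp hX k
  · obtain ⟨ℬ, hc, h3, h4⟩ := atoms_pow 𝒜 h1 h2 k
    exact S1.toSelP (S1_atoms ℬ hc h3 h4)

theorem sel_fin_S1 [Nonempty X] (hX : SelP True (DOmega X) (DOmega X))
    (hb : ¬ ∃ v : ONS X, Bad v) (k : ℕ) : SelP True (DFam (Fin k → X)) (DFam (Fin k → X)) :=
  sel_fin hX (fun h𝒞 hsp hX k => selP_true.mp (S1_pow h𝒞 hsp (selP_true.mpr hX) (Fin k))) hb k

theorem sel_fin_Sfin [Nonempty X] (hX : SelP False (DOmega X) (DOmega X))
    (hb : ¬ ∃ v : ONS X, Bad v) (k : ℕ) : SelP False (DFam (Fin k → X)) (DFam (Fin k → X)) :=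
  sel_fin hX (fun h𝒞 hsp hX k => selP_false.mp (Sfin_pow h𝒞 hsp (selP_false.mpr hX) (Fin k))) hb k

end

/-- `D_Ω` of a space with at most one point is empty -/
theorem DOmega_subsingleton {Y : Type u} [TopologicalSpace Y] [Subsingleton Y]
    (𝒰 : Set (Set Y)) : 𝒰 ∉ DOmega Y := by
  intro h
  obtain ⟨U, hU, -⟩ := h.2.2 ∅ finite_empty (by simp)
  have h1 := h.2.1 U hU
  obtain ⟨y, -, hy⟩ := not_subset.mp h1
  obtain ⟨W, hW, hm⟩ := h.2.2 {univ} (finite_singleton _) (by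
    rintro F rfl; exact ⟨isOpen_univ, y, mem_univ _⟩)
  obtain ⟨z, hz, -⟩ := hm univ rfl
  refine h.2.1 W hW fun x _ => ?_
  rw [Subsingleton.elim x z]
  exact subset_closure hz

theorem sel_subsingleton {p : Prop} {Y : Type u} [TopologicalSpace Y] [Subsingleton Y] :
    SelP p (DOmega Y) (DOmega Y) :=
  fun 𝒰 h𝒰 => absurd (h𝒰 0) (DOmega_subsingleton _)

/-- the countable chain condition for continuous images -/
theorem ccc_surj {Y : Type u} {Z : Type v} [TopologicalSpace Y] [TopologicalSpace Z] {f : Y → Z}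
    (hf : Continuous f) (hs : Function.Surjective f) (h : Ccc Y) : Ccc Z := by
  intro 𝒞 h1 h2
  refine countable_of_injective_of_countable_image (f := preimage f) hs.preimage_injective.injOn
    (h _ ?_ ?_)
  · rintro _ ⟨U, hU, rfl⟩
    obtain ⟨z, hz⟩ := (h1 U hU).2
    obtain ⟨y, rfl⟩ := hs z
    exact ⟨(h1 U hU).1.preimage hf, y, hz⟩
  · rintro _ ⟨U, hU, rfl⟩ _ ⟨V, hV, rfl⟩ hne
    exact (h2 U hU V hV fun he => hne (by rw [he])).preimage f

theorem ccc_two {ι : Type v} [Nontrivial ι] {X : Type u} [TopologicalSpace X]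
    (h : Ccc (ι → X)) : Ccc (Fin 2 → X) := by
  classical
  obtain ⟨i, j, hij⟩ := exists_pair_ne ι
  refine ccc_surj (f := fun (x : ι → X) => ![x i, x j]) ?_ ?_ h
  · refine continuous_pi fun a => ?_
    fin_cases a
    · exact continuous_apply i
    · exact continuous_apply j
  · intro y
    refine ⟨fun a => if a = i then y 0 else y 1, ?_⟩
    ext a
    fin_cases a
    · simp
    · simp [hij.symm]

theorem ccc_of_DOmega {Y : Type u} [TopologicalSpace Y] (hY : Sfin (DOmega Y) (DOmega Y)) :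
    Ccc Y := by
  intro 𝒞 h1 h2
  have := ccc_of_Sfin hY {p : ONS Y | (p : Set Y) ∈ 𝒞} fun U hU V hV hne =>
    h2 U hU V hV fun he => hne (Subtype.ext he)
  refine (this.image Subtype.val).mono fun U hU => ?_
  exact ⟨⟨U, h1 U hU⟩, hU, rfl⟩

/-- the main theorem for one space -/
theorem main {p : Prop} {X : Type u} [TopologicalSpace X] (hX : SelP p (DOmega X) (DOmega X))
    (hfin : ∀ [Nonempty X], (¬ ∃ v : ONS X, Bad v) → ∀ k : ℕ,
      SelP p (DFam (Fin k → X)) (DFam (Fin k → X)))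
    (hccc : Ccc (Fin 2 → X)) (ι : Type v) :
    SelP p (DOmega (ι → X)) (DOmega (ι → X)) ∧
      (Nonempty X → SelP p (DFam (ι → X)) (DFam (ι → X))) := by
  have hb : ¬ ∃ v : ONS X, Bad v := not_bad' hX.weaken fun 𝒞 h𝒞 =>
    countable_of_injective_of_countable_image (f := Subtype.val) Subtype.val_injective.injOn
      (hccc _ (by rintro _ ⟨U, -, rfl⟩; exact U.2) (by
        rintro _ ⟨U, hU, rfl⟩ _ ⟨V, hV, rfl⟩ hne
        exact h𝒞 U hU V hV fun he => hne (by rw [he])))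
  rcases isEmpty_or_nonempty X with hE | hN
  · refine ⟨?_, fun h => absurd hE (not_isEmpty_iff.mpr h)⟩
    have : Subsingleton (ι → X) := ⟨fun a b => funext fun i => (hE.false (a i)).elim⟩
    exact sel_subsingleton
  · have h := hfin hb
    refine ⟨sel_up fun r => sel_homeo (powPow r ι X) (sel_pi h), fun _ => sel_pi h⟩

end Pool.Agent.Y608.Sel
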