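import Pool.Agent.Helper63.Pow.Power
import Pool.Agent.Helper330.SRC.P_deltaSystem

/-!
# Selection principles for dense families in arbitrary powers
-/

set_option autoImplicit false

namespace Pool.Agent.Y608.Sel

open Set Pool.Agent.Helper63.Pow

universe u v w

/-- `S_fin`, where the chosen sets are singletons if `p` holds -/
def SelP (p : Prop) {Y : Type u} (𝔘 𝔙 : Set (Set (Set Y))) : Prop :=
  ∀ 𝒰 : ℕ → Set (Set Y), (∀ n, 𝒰 n ∈ 𝔘) →
    ∃ ℱ : ℕ → Set (Set Y), (∀ n, ℱ n ⊆ 𝒰 n ∧ (ℱ n).Finite ∧ (p → ∃ U, ℱ n = {U})) ∧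
      (⋃ n, ℱ n) ∈ 𝔙

theorem selP_false {Y : Type u} {𝔘 𝔙 : Set (Set (Set Y))} : Sfin 𝔘 𝔙 ↔ SelP False 𝔘 𝔙 := by
  constructor
  · intro h 𝒰 h𝒰
    obtain ⟨ℱ, h1, h2⟩ := h 𝒰 h𝒰
    exact ⟨ℱ, fun n => ⟨(h1 n).1, (h1 n).2, fun h => h.elim⟩, h2⟩
  · intro h 𝒰 h𝒰
    obtain ⟨ℱ, h1, h2⟩ := h 𝒰 h𝒰
    exact ⟨ℱ, fun n => ⟨(h1 n).1, (h1 n).2.1⟩, h2⟩

theorem selP_true {Y : Type u} {𝔘 𝔙 : Set (Set (Set Y))} : S1 𝔘 𝔙 ↔ SelP True 𝔘 𝔙 := by
  constructor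
  · intro h 𝒰 h𝒰
    obtain ⟨U, h1, h2⟩ := h 𝒰 h𝒰
    refine ⟨fun n => {U n}, fun n => ⟨by simpa using h1 n, finite_singleton _,
      fun _ => ⟨U n, rfl⟩⟩, ?_⟩
    convert h2 using 1
    ext V
    simp [eq_comm]
  · intro h 𝒰 h𝒰
    obtain ⟨ℱ, h1, h2⟩ := h 𝒰 h𝒰
    choose U hU using fun n => (h1 n).2.2 trivial
    refine ⟨U, fun n => (h1 n).1 (by rw [hU n]; rfl), ?_⟩
    convert h2 using 1
    ext V
    simp only [mem_setOf_eq, mem_iUnion, hU, mem_singleton_iff]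
    exact ⟨fun ⟨n, h⟩ => ⟨n, h.symm⟩, fun ⟨n, h⟩ => ⟨n, h.symm⟩⟩

theorem SelP.weaken {p : Prop} {Y : Type u} {𝔘 𝔙 : Set (Set (Set Y))} (h : SelP p 𝔘 𝔙) :
    Sfin 𝔘 𝔙 := by
  intro 𝒰 h𝒰
  obtain ⟨ℱ, h1, h2⟩ := h 𝒰 h𝒰
  exact ⟨ℱ, fun n => ⟨(h1 n).1, (h1 n).2.1⟩, h2⟩

theorem S1.toSelP {p : Prop} {Y : Type u} {𝔘 𝔙 : Set (Set (Set Y))} (h : S1 𝔘 𝔙) :
    SelP p 𝔘 𝔙 := by
  intro 𝒰 h𝒰
  obtain ⟨ℱ, h1, h2⟩ := selP_true.mp h 𝒰 h𝒰
  exact ⟨ℱ, fun n => ⟨(h1 n).1, (h1 n).2.1, fun _ => (h1 n).2.2 trivial⟩, h2⟩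

/-! ### Boxes -/

/-- a basic open box -/
structure Bx (ι : Type v) (X : Type u) [TopologicalSpace X] where
  side : ι → Set X
  op : ∀ i, IsOpen (side i)
  ne : ∀ i, (side i).Nonempty
  supp : Finset ι
  out : ∀ i, i ∉ supp → side i = univ

section

variable {ι : Type v} {X : Type u} [TopologicalSpace X]

theorem Bx.isOpen (b : Bx ι X) : IsOpen (univ.pi b.side) := by
  have : univ.pi b.side = (b.supp : Set ι).pi b.side := by
    ext x
    constructor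
    · intro h i _
      exact h i (mem_univ i)
    · intro h i _
      by_cases hi : i ∈ b.supp
      · exact h i hi
      · rw [b.out i hi]; exact mem_univ _
  rw [this]
  exact isOpen_set_pi (Finset.finite_toSet _) fun i _ => b.op i

theorem Bx.nonempty (b : Bx ι X) : (univ.pi b.side).Nonempty := univ_pi_nonempty_iff.mpr b.ne

theorem exists_bx {O : Set (ι → X)} (hO : IsOpen O) {x : ι → X} (hx : x ∈ O) :
    ∃ b : Bx ι X, x ∈ univ.pi b.side ∧ univ.pi b.side ⊆ O := by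
  classical
  obtain ⟨I, u, hu, hsub⟩ := isOpen_pi_iff.mp hO x hx
  refine ⟨⟨fun i => if i ∈ I then u i else univ, ?_, ?_, I, ?_⟩, ?_, ?_⟩
  · intro i
    split_ifs with h
    · exact (hu i h).1
    · exact isOpen_univ
  · intro i
    split_ifs with h
    · exact ⟨x i, (hu i h).2⟩
    · exact ⟨x i, mem_univ _⟩
  · intro i hi
    simp [hi]
  · intro i _
    dsimp only
    split_ifs with h
    · exact (hu i h).2
    · exact mem_univ _
  · refine Subset.trans ?_ hsub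
    intro y hy i hi
    have := hy i (mem_univ i)
    dsimp only at this
    rwa [if_pos (by exact_mod_cast hi)] at this

/-- the family of the sets of a countable set of conditions -/
theorem ccc_ons {Y : Type u} [TopologicalSpace Y] (hY : Ccc Y) (𝒬 : Set (ONS Y))
    (h : ∀ p ∈ 𝒬, ∀ q ∈ 𝒬, Meet p q → p = q) : 𝒬.Countable := by
  have h1 := hY (Subtype.val '' 𝒬) (by
    rintro _ ⟨U, _, rfl⟩; exact U.2) (by
    rintro _ ⟨p, hp, rfl⟩ _ ⟨q, hq, rfl⟩ hne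
    rw [disjoint_iff_inter_eq_empty, ← not_nonempty_iff_eq_empty]
    intro hm
    exact hne (by rw [h p hp q hq (meet_iff.mpr hm)]))
  exact countable_of_injective_of_countable_image (f := Subtype.val)
    Subtype.val_injective.injOn h1

/-- The countable chain condition of a product follows from that of the finite powers. -/
theorem ccc_pi (h : ∀ k : ℕ, Ccc (Fin k → X)) : Ccc (ι → X) := by
  classical
  intro 𝒞 h1 h2
  by_contra hunc
  have hb : ∀ U : 𝒞, ∃ b : Bx ι X, univ.pi b.side ⊆ (U : Set (ι → X)) := by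
    intro U
    obtain ⟨x, hx⟩ := (h1 U U.2).2
    obtain ⟨b, -, hb⟩ := exists_bx (h1 U U.2).1 hx
    exact ⟨b, hb⟩
  choose b hb using hb
  have hunc' : ¬ (univ : Set 𝒞).Countable := by
    rwa [countable_univ_iff, countable_coe_iff]
  obtain ⟨J', R, -, hJ', -, hR⟩ := Pool.Agent.Helper330.SRC.dSys (fun U => (b U).supp) univ hunc'
  set e := R.equivFin
  set D : 𝒞 → Set (Fin R.card → X) := fun U => univ.pi fun j => (b U).side (e.symm j : ι) with hD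
  have hDne : ∀ U, (D U).Nonempty := fun U => univ_pi_nonempty_iff.mpr fun j => (b U).ne _
  have hDo : ∀ U, IsOpen (D U) := fun U => isOpen_set_pi finite_univ fun j _ => (b U).op _
  have hdis : ∀ U ∈ J', ∀ V ∈ J', U ≠ V → Disjoint (D U) (D V) := by
    intro U hU V hV hne
    have h3 : Disjoint (univ.pi (b U).side) (univ.pi (b V).side) :=
      (h2 U U.2 V V.2 fun he => hne (Subtype.ext he)).mono (hb U) (hb V)
    rw [disjoint_left]
    intro y hyU hyV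
    have h4 : ∀ i, ((b U).side i ∩ (b V).side i).Nonempty := by
      intro i
      by_cases hi : i ∈ R
      · refine ⟨y (e ⟨i, hi⟩), ?_, ?_⟩
        · have := hyU (e ⟨i, hi⟩) (mem_univ _)
          simpa using this
        · have := hyV (e ⟨i, hi⟩) (mem_univ _)
          simpa using this
      · by_cases hiU : i ∈ (b U).supp
        · have hiV : i ∉ (b V).supp := fun hiV => hi (hR U hU V hV hne i hiU hiV)
          rw [(b V).out i hiV, inter_univ]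
          exact (b U).ne i
        · rw [(b U).out i hiU, univ_inter]
          exact (b V).ne i
    choose z hz using h4
    exact disjoint_left.mp h3 (fun i _ => (hz i).1) fun i _ => (hz i).2
  have hinj : InjOn D J' := by
    intro U hU V hV hUV
    by_contra hne
    have := hdis U hU V hV hne
    rw [hUV, disjoint_self] at this
    exact (hDne V).ne_empty this
  refine hJ' (countable_of_injective_of_countable_image hinj (h _ (D '' J') ?_ ?_))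
  · rintro _ ⟨U, -, rfl⟩
    exact ⟨hDo U, hDne U⟩
  · rintro _ ⟨U, hU, rfl⟩ _ ⟨V, hV, rfl⟩ hne
    exact hdis U hU V hV fun he => hne (by rw [he])

/-- `S_fin(D, D)` implies the countable chain condition. -/
theorem ccc_of_DFam {Y : Type u} [TopologicalSpace Y] (h : Sfin (DFam Y) (DFam Y)) : Ccc Y := by
  intro 𝒞 h1 h2
  set O : Set Y := (closure (⋃₀ 𝒞))ᶜ with hO
  have hmem : insert O 𝒞 ∈ DFam Y := by
    refine ⟨?_, ?_⟩
    · rintro U (rfl | hU)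
      · exact isClosed_closure.isOpen_compl
      · exact (h1 U hU).1
    · rw [dense_iff_inter_open]
      rintro W hW ⟨x, hx⟩
      by_cases hxO : x ∈ O
      · exact ⟨x, hx, O, mem_insert _ _, hxO⟩
      · have hx' : x ∈ closure (⋃₀ 𝒞) := by
          by_contra hcon
          exact hxO hcon
        obtain ⟨y, hy1, U, hU, hyU⟩ := mem_closure_iff.mp hx' W hW hx
        exact ⟨y, hy1, U, mem_insert_of_mem _ hU, hyU⟩
  obtain ⟨ℱ, hℱ, hD⟩ := h (fun _ => insert O 𝒞) fun _ => hmem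
  refine (countable_iUnion fun n => (hℱ n).2.countable).mono fun U hU => ?_
  obtain ⟨x, hxU, W, hW, hxW⟩ := hD.2.inter_open_nonempty U (h1 U hU).1 (h1 U hU).2
  obtain ⟨n, hn⟩ := mem_iUnion.mp hW
  rcases (hℱ n).1 hn with rfl | hW𝒞
  · exact absurd (subset_closure (mem_sUnion.mpr ⟨U, hU, hxU⟩) : x ∈ closure (⋃₀ 𝒞)) hxW
  · have : U = W := by
      by_contra hne
      exact disjoint_left.mp (h2 U hU W hW𝒞 hne) hxU hxW
    rw [this]
    exact hW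

/-- Countably many atoms. -/
theorem S1_atoms {Y : Type u} [TopologicalSpace Y] [Nonempty Y] (𝒜 : Set (ONS Y))
    (hc : 𝒜.Countable) (h1 : ∀ A ∈ 𝒜, Hyp A) (h2 : ∀ o : ONS Y, ∃ A ∈ 𝒜, Meet o A) :
    S1 (DFam Y) (DFam Y) := by
  obtain ⟨y₀⟩ := ‹Nonempty Y›
  obtain ⟨A₀, hA₀, -⟩ := h2 ⟨univ, isOpen_univ, ⟨y₀, mem_univ _⟩⟩
  obtain ⟨a, ha⟩ := hc.exists_eq_range ⟨A₀, hA₀⟩
  intro 𝒰 h𝒰
  have hU : ∀ n, ∃ U ∈ 𝒰 n, ((a n : Set Y) ∩ U).Nonempty := by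
    intro n
    obtain ⟨x, hx, U, hU, hxU⟩ := (h𝒰 n).2.inter_open_nonempty _ (a n).2.1 (a n).2.2
    exact ⟨U, hU, x, hx, hxU⟩
  choose U hU1 hU2 using hU
  refine ⟨U, hU1, ?_, ?_⟩
  · rintro _ ⟨n, rfl⟩
    exact (h𝒰 n).1 _ (hU1 n)
  · rw [dense_iff_inter_open]
    intro O hO hne
    obtain ⟨A, hA, hm⟩ := h2 ⟨O, hO, hne⟩
    rw [ha] at hA
    obtain ⟨n, rfl⟩ := hA
    have hm' := meet_iff.mp hm
    have := h1 (a n) (ha ▸ mem_range_self n)
      ⟨O ∩ (a n : Set Y), hO.inter (a n).2.1, hm'⟩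
      ⟨(a n : Set Y) ∩ U n, (a n).2.1.inter ((h𝒰 n).1 _ (hU1 n)), hU2 n⟩
      inter_subset_right inter_subset_left
    obtain ⟨z, hz1, hz2⟩ := meet_iff.mp this
    exact ⟨z, hz1.1, U n, ⟨n, rfl⟩, hz2.2⟩

/-- Finitely many atoms in a space give finitely many atoms in the finite powers. -/
theorem atoms_pow (𝒜 : Finset (ONS X)) (h1 : ∀ A ∈ 𝒜, Hyp A) (h2 : ∀ o, ∃ A ∈ 𝒜, Meet o A)
    (k : ℕ) : ∃ ℬ : Set (ONS (Fin k → X)), ℬ.Countable ∧ (∀ A ∈ ℬ, Hyp A) ∧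
      ∀ o : ONS (Fin k → X), ∃ A ∈ ℬ, Meet o A := by
  classical
  let f : (Fin k → 𝒜) → ONS (Fin k → X) := fun c =>
    ⟨univ.pi fun j => ((c j).1 : Set X), isOpen_set_pi finite_univ fun j _ => (c j).1.2.1,
      univ_pi_nonempty_iff.mpr fun j => (c j).1.2.2⟩
  refine ⟨range f, countable_range f, ?_, ?_⟩
  · rintro _ ⟨c, rfl⟩ B C hB hC
    obtain ⟨x, hx⟩ := B.2.2
    obtain ⟨y, hy⟩ := C.2.2
    obtain ⟨u, hu, huB⟩ := isOpen_pi_iff'.mp B.2.1 x hx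
    obtain ⟨v, hv, hvC⟩ := isOpen_pi_iff'.mp C.2.1 y hy
    have hz : ∀ j, ∃ z, z ∈ u j ∧ z ∈ v j := by
      intro j
      have hxj : x j ∈ ((c j).1 : Set X) := hB hx j (mem_univ j)
      have hyj : y j ∈ ((c j).1 : Set X) := hC hy j (mem_univ j)
      have := h1 _ (c j).2 ⟨u j ∩ ((c j).1 : Set X), (hu j).1.inter (c j).1.2.1, ⟨x j, (hu j).2, hxj⟩⟩
        ⟨v j ∩ ((c j).1 : Set X), (hv j).1.inter (c j).1.2.1, ⟨y j, (hv j).2, hyj⟩⟩
        inter_subset_right inter_subset_right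
      obtain ⟨z, hz1, hz2⟩ := meet_iff.mp this
      exact ⟨z, hz1.1, hz2.1⟩
    choose z hz1 hz2 using hz
    exact meet_iff.mpr ⟨z, huB fun j _ => hz1 j, hvC fun j _ => hz2 j⟩
  · intro o
    obtain ⟨x, hx⟩ := o.2.2
    obtain ⟨u, hu, huo⟩ := isOpen_pi_iff'.mp o.2.1 x hx
    have hc : ∀ j, ∃ A : 𝒜, Meet (⟨u j, (hu j).1, ⟨x j, (hu j).2⟩⟩ : ONS X) A.1 := by
      intro j
      obtain ⟨A, hA, hm⟩ := h2 ⟨u j, (hu j).1, ⟨x j, (hu j).2⟩⟩
      exact ⟨⟨A, hA⟩, hm⟩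
    choose c hc using hc
    have hz : ∀ j, ∃ z, z ∈ u j ∧ z ∈ ((c j).1 : Set X) := fun j => meet_iff.mp (hc j)
    choose z hz1 hz2 using hz
    exact ⟨f c, ⟨c, rfl⟩, meet_iff.mpr ⟨z, huo fun j _ => hz1 j, fun j _ => hz2 j⟩⟩

end

end Pool.Agent.Y608.Sel
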